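import Pool.Agent.Lib.MP_17a322_nt.JAC.Defs

/-!
Vojta's conjecture for rational varieties: definitions.
-/

universe u

namespace Pool.Agent.Lib.MP_17a322_nt.RAT

open MvPolynomial Height NumberField
open Pool.Agent.Lib.MP_17a322_nt.EQ

/-- The ideal `J` is the ideal of a rational projective variety: `J` is the kernel of the map of
polynomial rings given by forms `Ψ i` of the same degree `d > 0` in the variables `X_j`, `j ∈ τ`,
and the rational map given by the `Ψ i` from the projective space with these coordinates has a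
rational inverse: there are forms `A j` of the same degree with `A_j(Ψ) = B X_j` and a nonzero
polynomial `B`. -/
def IsRat {K : Type u} [Field K] {ι : Type} (J : Ideal (MvPolynomial ι K)) : Prop :=
  ∃ (τ : Type) (_ : Fintype τ) (Ψ : ι → MvPolynomial τ K) (A : τ → MvPolynomial ι K)
    (B : MvPolynomial τ K) (d e : ℕ), 0 < d ∧ (∀ i, (Ψ i).IsHomogeneous d) ∧
    (∀ j, (A j).IsHomogeneous e) ∧ B ≠ 0 ∧ (∀ j, aeval Ψ (A j) = B * X j) ∧
    J = RingHom.ker (aeval (R := K) Ψ)

/-- Vojta's conjecture for rational points and `D = 0` for rational projective varieties (not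
necessarily smooth): the inequality `hCan ≤ ε h + O(1)` outside a proper closed subset. -/
def VojtaGaussRat (K : Type u) [Field K] [NumberField K] : Prop :=
  ∀ (ι : Type) [Fintype ι] (J : Ideal (MvPolynomial ι K)), J.IsPrime →
    (∀ F ∈ J, ∀ i, homogeneousComponent i F ∈ J) → IsRat J → ∀ ε : ℝ, 0 < ε →
    ∃ (G : MvPolynomial ι K) (C : ℝ), G ∉ J ∧ (∃ d, G.IsHomogeneous d) ∧
      ∀ p : ι → K, IsPt J p → eval p G ≠ 0 → hCan J p ≤ ε * logHeight p + C

end Pool.Agent.Lib.MP_17a322_nt.RAT
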