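import Pool.Agent.Lib.MP_17a322_nt.RAT.A1
import Pool.Agent.Lib.MP_17a322_nt.EQ.Q1
import Pool.Agent.Lib.MP_17a322_nt.EQ.P1b

/-!
The Jacobian minors of the products of the coordinates and the forms.
-/

universe u

namespace Pool.Agent.Lib.MP_17a322_nt.RAT

open MvPolynomial hiding psum
open Height NumberField
open Pool.Agent.Lib.MP_17a322_nt.EQ

/-- The forms `X_j Φ_a`. -/
noncomputable def seg {K : Type u} [Field K] {τ κ : Type} (Φ : κ → MvPolynomial τ K) :
    τ × κ → MvPolynomial τ K := fun x => X x.1 * Φ x.2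

/-- The minors of the products with one coordinate. -/
theorem det_seg {K : Type u} [Field K] [CharZero K] {τ κ : Type} [Fintype τ] [DecidableEq τ]
    (Φ : κ → MvPolynomial τ K) {d : ℕ} (hd : 0 < d) (hΦ : ∀ a, (Φ a).IsHomogeneous d)
    (w : τ → K) (j₀ : τ) (hw : w j₀ ≠ 0) (s : τ → κ) :
    (Matrix.of fun i j => eval w (pderiv j (seg Φ (j₀, s i)))).det
      = w j₀ ^ Fintype.card τ * (1 + 1 / (d : K)) *
        (Matrix.of fun i j => eval w (pderiv j (Φ (s i)))).det := by
  have hd' : (d : K) ≠ 0 := by exact_mod_cast hd.ne'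
  set A : Matrix τ τ K := Matrix.of fun i j => eval w (pderiv j (Φ (s i))) with hA
  have heul : ∀ i, ∑ j, A i j * w j = d * eval w (Φ (s i)) := by
    intro i
    have h1 := congrArg (eval w) (hΦ (s i)).sum_X_mul_pderiv
    rw [map_sum, nsmul_eq_mul, map_mul, map_natCast] at h1
    rw [← h1]
    refine Finset.sum_congr rfl fun j _ => ?_
    rw [map_mul, eval_X, hA, Matrix.of_apply, mul_comm]
  have h1 : (Matrix.of fun i j => eval w (pderiv j (seg Φ (j₀, s i))))
      = (w j₀ • A) * (1 + Matrix.replicateCol Unit (fun i => w i / (w j₀ * d)) *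
        Matrix.replicateRow Unit (Pi.single j₀ (1 : K))) := by
    ext i j
    rw [Matrix.mul_add, Matrix.mul_one, Matrix.add_apply, ← Matrix.mul_assoc, Matrix.of_apply,
      Matrix.mul_apply]
    simp only [Finset.univ_unique, Finset.sum_singleton, Matrix.replicateRow_apply,
      Matrix.mul_apply, Matrix.replicateCol_apply, Matrix.smul_apply, smul_eq_mul]
    have h2 : ∑ j, w j₀ * A i j * (w j / (w j₀ * d)) = eval w (Φ (s i)) := by
      have h3 : ∑ j, w j₀ * A i j * (w j / (w j₀ * d)) = (∑ j, A i j * w j) / d := by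
        rw [Finset.sum_div]
        exact Finset.sum_congr rfl fun j _ => by field_simp
      rw [h3, heul i, mul_div_cancel_left₀ _ hd']
    rw [h2]
    simp only [seg, Derivation.leibniz, map_add, smul_eq_mul, map_mul, eval_X]
    rw [hA, Matrix.of_apply]
    by_cases hj : j = j₀
    · subst hj
      rw [pderiv_X_self, map_one, Pi.single_eq_same]
    · rw [pderiv_X_of_ne (Ne.symm hj), map_zero, Pi.single_eq_of_ne hj]
  rw [h1, Matrix.det_mul, Matrix.det_smul, Matrix.det_one_add_replicateCol_mul_replicateRow]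
  have h2 : (Pi.single j₀ (1 : K)) ⬝ᵥ (fun i => w i / (w j₀ * d)) = 1 / d := by
    rw [single_one_dotProduct]
    field_simp
  rw [h2]
  ring

section

variable {K : Type u} [Field K] [NumberField K] {τ κ : Type} [Fintype τ] [DecidableEq τ]
  [Fintype κ]

theorem seg_minors (Φ : κ → MvPolynomial τ K) {d : ℕ} (hd : 0 < d)
    (hΦ : ∀ a, (Φ a).IsHomogeneous d) (w : τ → K) (hw : ∀ j, w j ≠ 0) [Nonempty τ]
    (hm : (fun s : τ → κ => (Matrix.of fun i j => eval w (pderiv j (Φ (s i)))).det) ≠ 0) :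
    Fintype.card τ * logHeight w
        + logHeight (fun s : τ → κ => (Matrix.of fun i j => eval w (pderiv j (Φ (s i)))).det)
      ≤ logHeight (fun s : τ → τ × κ =>
          (Matrix.of fun i j => eval w (pderiv j (seg Φ (s i)))).det) := by
  have hd' : (d : K) ≠ 0 := by exact_mod_cast hd.ne'
  have hc0 : (1 + 1 / (d : K)) ≠ 0 := by
    have h1 : (1 + 1 / (d : K)) = ((d + 1 : ℕ) : K) / d := by
      push_cast
      field_simp
    rw [h1]
    refine div_ne_zero ?_ hd'
    exact_mod_cast Nat.succ_ne_zero d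
  have hw0 : w ≠ 0 := by
    obtain ⟨j⟩ := (inferInstance : Nonempty τ)
    exact fun h => hw j (by rw [h]; rfl)
  have hent : ∀ (j₀ : τ) (s : τ → κ), (Matrix.of fun i j =>
      eval w (pderiv j (seg Φ ((fun i => (j₀, s i)) i)))).det
      = w j₀ ^ Fintype.card τ * (1 + 1 / (d : K)) *
        (Matrix.of fun i j => eval w (pderiv j (Φ (s i)))).det :=
    fun j₀ s => det_seg Φ hd hΦ w j₀ (hw j₀) s
  have hM : (fun s : τ → τ × κ =>
      (Matrix.of fun i j => eval w (pderiv j (seg Φ (s i)))).det) ≠ 0 := by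
    obtain ⟨s, hs⟩ := Function.ne_iff.1 hm
    obtain ⟨j₀⟩ := (inferInstance : Nonempty τ)
    intro h
    have h1 := congrFun h fun i => (j₀, s i)
    rw [Pi.zero_apply] at h1
    have h2 := (hent j₀ s).symm.trans h1
    exact mul_ne_zero (mul_ne_zero (pow_ne_zero _ (hw j₀)) hc0) hs h2
  rw [← hl_psum_sup hw0, ← hl_psum_sup hm, ← hl_psum_sup hM, ← hs_mul,
    ← add_zero (psum _ + psum _), ← psum_log_abv hc0,
    ← hs_add (hs_fs_mul _ (hl_fs_sup hw0)) (hl_fs_sup hm),
    ← hs_add (hs_fs_add (hs_fs_mul _ (hl_fs_sup hw0)) (hl_fs_sup hm)) (hl_fs_abs hc0)]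
  refine hs_mono (hs_fs_add (hs_fs_add (hs_fs_mul _ (hl_fs_sup hw0)) (hl_fs_sup hm))
    (hl_fs_abs hc0)) (hl_fs_sup hM) fun v => ?_
  obtain ⟨j₀, hj0, hj⟩ := hl_attained (av v) hw0
  obtain ⟨s, hs0, hs⟩ := hl_attained (av v) hm
  rw [hj, hs]
  have h1 : Fintype.card τ * Real.log (av v (w j₀))
      + Real.log (av v (Matrix.of fun i j => eval w (pderiv j (Φ (s i)))).det)
      + Real.log (av v (1 + 1 / (d : K)))
      = Real.log (av v (Matrix.of fun i j =>
        eval w (pderiv j (seg Φ ((fun i => (j₀, s i)) i)))).det) := by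
    rw [hent, map_mul, map_mul, map_pow,
      Real.log_mul (mul_ne_zero (pow_ne_zero _ ((av v).pos hj0).ne') ((av v).pos hc0).ne')
        ((av v).pos hs0).ne',
      Real.log_mul (pow_ne_zero _ ((av v).pos hj0).ne') ((av v).pos hc0).ne', Real.log_pow]
    ring
  rw [h1]
  refine Real.log_le_log ((av v).pos ?_) (Finite.le_ciSup (fun s : τ → τ × κ =>
    av v (Matrix.of fun i j => eval w (pderiv j (seg Φ (s i)))).det) fun i => (j₀, s i))
  rw [hent]
  exact mul_ne_zero (mul_ne_zero (pow_ne_zero _ hj0) hc0) hs0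

omit [DecidableEq τ] in
theorem seg_height (Φ : κ → MvPolynomial τ K) (w : τ → K) (hw : ∀ j, w j ≠ 0) [Nonempty τ]
    {a₀ : κ} (ha : eval w (Φ a₀) ≠ 0) :
    logHeight (fun x => eval w (seg Φ x)) ≤ logHeight w + logHeight fun a => eval w (Φ a) := by
  obtain ⟨j₀⟩ := (inferInstance : Nonempty τ)
  have hw0 : w ≠ 0 := fun h => hw j₀ (by rw [h]; rfl)
  have hΦ0 : (fun a => eval w (Φ a)) ≠ 0 := fun h => ha (congrFun h a₀)
  have hev : ∀ x, eval w (seg Φ x) = w x.1 * eval w (Φ x.2) := by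
    intro x
    rw [seg, map_mul, eval_X]
  have hS0 : (fun x => eval w (seg Φ x)) ≠ 0 := by
    intro h
    have h1 := congrFun h (j₀, a₀)
    rw [Pi.zero_apply, hev] at h1
    exact mul_ne_zero (hw j₀) ha h1
  rw [← hl_psum_sup hw0, ← hl_psum_sup hΦ0, ← hl_psum_sup hS0,
    ← hs_add (hl_fs_sup hw0) (hl_fs_sup hΦ0)]
  refine hs_mono (hl_fs_sup hS0) (hs_fs_add (hl_fs_sup hw0) (hl_fs_sup hΦ0)) fun v => ?_
  rw [← Real.log_mul (hl_pos (av v) hw0).ne' (hl_pos (av v) hΦ0).ne']
  refine Real.log_le_log (hl_pos (av v) hS0) ?_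
  have hne : Nonempty (τ × κ) := ⟨(j₀, a₀)⟩
  refine ciSup_le fun x => ?_
  rw [hev, map_mul]
  exact mul_le_mul (Finite.le_ciSup (fun j => av v (w j)) x.1)
    (Finite.le_ciSup (fun a => av v (eval w (Φ a))) x.2) ((av v).nonneg _)
    (hl_pos (av v) hw0).le

/-- The inequality for the products implies the inequality for the forms. -/
theorem jacAt_seg (Φ : κ → MvPolynomial τ K) {d : ℕ} (hd : 0 < d)
    (hΦ : ∀ a, (Φ a).IsHomogeneous d) [Nonempty τ] {a₀ : κ} (ha : Φ a₀ ≠ 0) {ε : ℝ} (hε : 0 < ε)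
    (h : JacAt (seg Φ) ε) : JacAt Φ ε := by
  obtain ⟨G, C, hG, ⟨d', hG'⟩, hmain⟩ := h
  refine ⟨G * (Φ a₀ * ∏ j, X j), |C|, mul_ne_zero hG (mul_ne_zero ha
    (Finset.prod_ne_zero_iff.2 fun j _ => X_ne_zero _)),
    ⟨_, hG'.mul ((hΦ a₀).mul (IsHomogeneous.prod _ _ (fun _ => 1) fun j _ =>
      isHomogeneous_X K j))⟩, fun w hw => ?_⟩
  rw [map_mul, map_mul, map_prod] at hw
  have hw1 : eval w G ≠ 0 := left_ne_zero_of_mul hw
  have hw2 : eval w (Φ a₀) ≠ 0 := left_ne_zero_of_mul (right_ne_zero_of_mul hw)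
  have hw3 : ∀ j, w j ≠ 0 := by
    intro j
    have h1 := Finset.prod_ne_zero_iff.1 (right_ne_zero_of_mul (right_ne_zero_of_mul hw)) j
      (Finset.mem_univ j)
    rwa [eval_X] at h1
  have hh : 0 ≤ ε * logHeight w := mul_nonneg hε.le (logHeight_nonneg _)
  by_cases hm : (fun s : τ → κ => (Matrix.of fun i j => eval w (pderiv j (Φ (s i)))).det) = 0
  · rw [hm, logHeight_zero]
    have h1 : 0 ≤ (Fintype.card τ : ℝ) * logHeight (fun a => eval w (Φ a)) :=
      mul_nonneg (Nat.cast_nonneg _) (logHeight_nonneg _)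
    have := abs_nonneg C
    linarith
  · have h1 := hmain w hw1
    have h2 := seg_minors Φ hd hΦ w hw3 hm
    have h3 := mul_le_mul_of_nonneg_left (seg_height Φ w hw3 hw2)
      (Nat.cast_nonneg (α := ℝ) (Fintype.card τ))
    have h4 := le_abs_self C
    linarith

end

/-- Vojta's conjecture for `D = 0` and rational varieties implies the inequality for the Jacobian
minors of rational maps. -/
theorem jac_of_gaussRat {K : Type u} [Field K] [NumberField K] (h : VojtaGaussRat K) :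
    JAC.JacIneq K := by
  intro τ κ _ _ _ Φ d hΦ ε hε
  change JacAt Φ ε
  rcases isEmpty_or_nonempty τ with hτ | hτ
  · exact jacAt_triv Φ hε fun w => logHeight_eq_zero_of_subsingleton _
  by_cases ha : ∀ a, Φ a = 0
  · refine jacAt_triv Φ hε fun w => ?_
    have h1 : (fun s : τ → κ => (Matrix.of fun i j => eval w (pderiv j (Φ (s i)))).det) = 0 := by
      funext s
      have h2 : (Matrix.of fun i j => eval w (pderiv j (Φ (s i)))) = 0 := by
        ext i j
        rw [Matrix.of_apply, ha, map_zero, map_zero]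
        rfl
      rw [h2, Matrix.det_zero]
      rfl
    rw [h1, logHeight_zero]
  push Not at ha
  obtain ⟨a₀, ha⟩ := ha
  rcases Nat.eq_zero_or_pos d with hd | hd
  · refine jacAt_triv Φ hε fun w => ?_
    have h1 : (fun s : τ → κ => (Matrix.of fun i j => eval w (pderiv j (Φ (s i)))).det) = 0 := by
      funext s
      have h2 : (Matrix.of fun i j => eval w (pderiv j (Φ (s i)))) = 0 := by
        ext i j
        have h3 := hΦ (s i)
        rw [hd, ← totalDegree_zero_iff_isHomogeneous, totalDegree_eq_zero_iff_eq_C] at h3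
        rw [Matrix.of_apply, h3, pderiv_C, map_zero]
        rfl
      rw [h2, Matrix.det_zero]
      rfl
    rw [h1, logHeight_zero]
  refine jacAt_seg Φ hd hΦ ha hε ?_
  have hseg : ∀ x, (seg Φ x).IsHomogeneous (1 + d) := fun x =>
    (isHomogeneous_X K x.1).mul (hΦ x.2)
  refine jacAt_of_gauss (seg Φ) (by omega) hseg ?_ hε
  refine h (τ × κ) (JAC.imI (seg Φ)) (JAC.imI_prime _) (JAC.imI_homog _ (by omega) hseg) ?_
  exact ⟨τ, inferInstance, seg Φ, fun j => X (j, a₀), Φ a₀, 1 + d, 1, by omega, hseg,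
    fun j => isHomogeneous_X K _, ha, fun j => by rw [aeval_X, seg, mul_comm], rfl⟩

end Pool.Agent.Lib.MP_17a322_nt.RAT
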