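import Pool.Agent.Lib.MP_17a322_nt.RAT.Defs
import Pool.Agent.Lib.MP_17a322_nt.JAC.R2

/-!
The inequality for the image of a rational map implies the inequality for the Jacobian minors.
-/

universe u

namespace Pool.Agent.Lib.MP_17a322_nt.RAT

open MvPolynomial hiding psum
open Height NumberField
open Pool.Agent.Lib.MP_17a322_nt.EQ
open Pool.Agent.Lib.MP_17a322_nt.JAC (imI imI_prime imI_homog hCan_image)

theorem det_eval {K : Type u} [Field K] [NumberField K] {τ κ : Type} [Fintype τ] [DecidableEq τ]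
    (Φ : κ → MvPolynomial τ K) (w : τ → K) (s : τ → κ) :
    (Matrix.of fun i j => eval w (pderiv j (Φ (s i)))).det =
      eval w (Matrix.of fun i j => pderiv j (Φ (s i))).det := by
  rw [RingHom.map_det]
  rfl

/-- The inequality for the Jacobian minors of the map given by the forms `Φ a`. -/
def JacAt {K : Type u} [Field K] [NumberField K] {τ κ : Type} [Fintype τ] [DecidableEq τ]
    [Fintype κ] (Φ : κ → MvPolynomial τ K) (ε : ℝ) : Prop :=
  ∃ (G : MvPolynomial τ K) (C : ℝ), G ≠ 0 ∧ (∃ d', G.IsHomogeneous d') ∧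
    ∀ w : τ → K, eval w G ≠ 0 →
      logHeight (fun s : τ → κ => (Matrix.of fun i j => eval w (pderiv j (Φ (s i)))).det) ≤
        Fintype.card τ * logHeight (fun a => eval w (Φ a)) + ε * logHeight w + C

theorem jacAt_triv {K : Type u} [Field K] [NumberField K] {τ κ : Type} [Fintype τ]
    [DecidableEq τ] [Fintype κ] (Φ : κ → MvPolynomial τ K) {ε : ℝ} (hε : 0 < ε)
    (h : ∀ w : τ → K, logHeight (fun s : τ → κ =>
      (Matrix.of fun i j => eval w (pderiv j (Φ (s i)))).det) = 0) : JacAt Φ ε := by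
  refine ⟨1, 0, one_ne_zero, ⟨0, isHomogeneous_one τ K⟩, fun w _ => ?_⟩
  rw [h w, add_zero]
  exact add_nonneg (mul_nonneg (Nat.cast_nonneg _) (logHeight_nonneg _))
    (mul_nonneg hε.le (logHeight_nonneg _))

theorem jacAt_of_gauss {K : Type u} [Field K] [NumberField K] {τ κ : Type} [Fintype τ]
    [DecidableEq τ] [Fintype κ] (Φ : κ → MvPolynomial τ K) {d : ℕ}
    (hd : 0 < d) (hΦ : ∀ a, (Φ a).IsHomogeneous d)
    (h : ∀ ε : ℝ, 0 < ε → ∃ (G : MvPolynomial κ K) (C : ℝ), G ∉ imI Φ ∧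
      (∃ d, G.IsHomogeneous d) ∧ ∀ p : κ → K, IsPt (imI Φ) p → eval p G ≠ 0 →
        hCan (imI Φ) p ≤ ε * logHeight p + C) {ε : ℝ} (hε : 0 < ε) : JacAt Φ ε := by
  by_cases h0 : ∀ s : τ → κ, (Matrix.of fun i j => pderiv j (Φ (s i))).det = 0
  · refine jacAt_triv Φ hε fun w => ?_
    have h1 : (fun s : τ → κ => (Matrix.of fun i j => eval w (pderiv j (Φ (s i)))).det) = 0 := by
      funext s
      rw [det_eval, h0 s, map_zero]
      rfl
    rw [h1, logHeight_zero]
  · push Not at h0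
    obtain ⟨s, hs⟩ := h0
    rcases isEmpty_or_nonempty τ with hτ | hτ
    · exact jacAt_triv Φ hε fun w => logHeight_eq_zero_of_subsingleton _
    · have hd1 : (0 : ℝ) < (d : ℝ) + 1 := by positivity
      obtain ⟨G0, C0, hG0, ⟨m, hm⟩, hG⟩ := h (ε / (d + 1)) (div_pos hε hd1)
      obtain ⟨C1, hC1⟩ := logHeight_eval_le' hΦ
      obtain ⟨H, hH0, ⟨d', hd'⟩, hH⟩ := hCan_image Φ hd hΦ s hs
      have hG1 : aeval Φ G0 ≠ 0 := hG0
      refine ⟨aeval Φ G0 * H, C0 + ε / (d + 1) * max C1 0, mul_ne_zero hG1 hH0,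
        ⟨_, (hm.aeval Φ hΦ).mul hd'⟩, fun w hw => ?_⟩
      rw [map_mul] at hw
      obtain ⟨hpt, hcan⟩ := hH w (right_ne_zero_of_mul hw)
      have h5 : eval (fun a => eval w (Φ a)) G0 = eval w (aeval Φ G0) := by
        rw [← coe_aeval_eq_eval, ← coe_aeval_eq_eval]
        have h6 : (aeval fun a => aeval w (Φ a) : MvPolynomial κ K →ₐ[K] K) =
            (aeval w).comp (aeval Φ) := by
          apply MvPolynomial.algHom_ext
          intro i
          simp
        exact DFunLike.congr_fun h6 G0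
      have h7 := hG (fun a => eval w (Φ a)) hpt (by rw [h5]; exact left_ne_zero_of_mul hw)
      rw [hcan] at h7
      have h8 := hC1 w
      have h9 := logHeight_nonneg w
      have he : 0 ≤ ε / ((d : ℝ) + 1) := (div_pos hε hd1).le
      have h10 : ε / ((d : ℝ) + 1) * logHeight (fun a => eval w (Φ a)) ≤
          ε / ((d : ℝ) + 1) * (max C1 0 + d * logHeight w) :=
        mul_le_mul_of_nonneg_left (h8.trans (by linarith [le_max_left C1 0])) he
      have h11 : ε / ((d : ℝ) + 1) * (d * logHeight w) ≤ ε * logHeight w := by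
        rw [← mul_assoc]
        refine mul_le_mul_of_nonneg_right ?_ h9
        rw [div_mul_eq_mul_div, div_le_iff₀ hd1]
        linarith
      linarith [mul_add (ε / ((d : ℝ) + 1)) (max C1 0) (d * logHeight w)]

end Pool.Agent.Lib.MP_17a322_nt.RAT
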